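import Pool.Agent.W223.RD.Stms

set_option autoImplicit false

namespace Pool.Agent.W834.RD

open Finset Pool.Agent.W223.RD

lemma y_le (p ℓ : ℕ) (hℓ : 0 < ℓ) : p ^ (ℓ - 1) ≤ ∑ i ∈ range ℓ, p ^ i :=
  single_le_sum (f := fun i => p ^ i) (fun _ _ => Nat.zero_le _) (mem_range.2 (by omega))

lemma y_mul (p ℓ : ℕ) (hp : 1 ≤ p) : (p - 1) * ∑ i ∈ range ℓ, p ^ i = p ^ ℓ - 1 := by
  obtain ⟨t, rfl⟩ : ∃ t, p = t + 1 := ⟨p - 1, by omega⟩
  have := geom_sum_mul_add t ℓ
  rw [Nat.add_sub_cancel, mul_comm]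
  omega

lemma y_odd (p ℓ : ℕ) (hℓ : Odd ℓ) : Odd (∑ i ∈ range ℓ, p ^ i) := by
  rcases Nat.even_or_odd p with hp | hp
  · obtain ⟨k, hk⟩ := hℓ
    rw [hk, sum_range_succ']
    simp only [pow_zero]
    refine Even.add_one ?_
    refine Finset.even_sum _ fun i _ => ?_
    rw [pow_succ]
    exact hp.mul_left _
  · rw [Finset.odd_sum_iff_odd_card_odd]
    have : (range ℓ).filter (fun i => Odd (p ^ i)) = range ℓ := by
      apply filter_true_of_mem
      intro i _
      exact hp.pow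
    rw [this, card_range]
    exact hℓ

theorem tD2 : StmtD2 := by
  intro m ℓ p hp hℓ hm hmp hrep hbig
  have hp1 : 1 ≤ p := hp.one_lt.le
  set w := m.primeFactors.card with hw
  have hodd : Odd ℓ := hℓ.odd_of_ne_two (by omega)
  set y := ∑ i ∈ range ℓ, p ^ i with hy
  have hyodd : Odd y := y_odd p ℓ hodd
  have hy0 : y ≠ 0 := by
    rintro h
    rw [h] at hyodd
    exact absurd hyodd (by decide)
  have hmul := y_mul p ℓ hp1
  rw [← hy] at hmul
  have hdvd : y ∣ p ^ ℓ - 1 := ⟨p - 1, by rw [← hmul]; ring⟩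
  -- the prime factors of y
  have hq : ∀ q ∈ y.primeFactors, q ∈ m.primeFactors ∧ 2 < q ∧ q < p := by
    intro q hq
    have hqp := Nat.prime_of_mem_primeFactors hq
    have hqy := Nat.dvd_of_mem_primeFactors hq
    have h2 : q ≠ 2 := by
      rintro rfl
      exact (Nat.not_even_iff_odd.2 hyodd) (even_iff_two_dvd.2 hqy)
    have h3 : q ∣ m := by
      rcases (Nat.Prime.dvd_mul hqp).1 (hrep q hqp hqy) with h | h
      · exact absurd ((Nat.prime_dvd_prime_iff_eq hqp Nat.prime_two).1 h) h2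
      · exact h
    refine ⟨Nat.mem_primeFactors.2 ⟨hqp, h3, hm.ne'⟩, ?_, hmp q hqp h3⟩
    have := hqp.two_le
    omega
  -- some prime power is large
  have hex : ∃ q ∈ y.primeFactors, p ^ 8 ≤ q ^ (y.factorization q) := by
    by_contra hcon
    push Not at hcon
    have h1 : y = ∏ q ∈ y.primeFactors, q ^ (y.factorization q) :=
      (Nat.prod_factorization_pow_eq_self hy0).symm
    have h2 : y ≤ ∏ _q ∈ y.primeFactors, p ^ 8 := by
      conv_lhs => rw [h1]
      exact prod_le_prod' fun q hq' => (hcon q hq').le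
    rw [prod_const, ← pow_mul] at h2
    have h3 : y.primeFactors.card ≤ w := card_le_card fun q hq' => (hq q hq').1
    have h4 := y_le p ℓ hℓ.pos
    rw [← hy] at h4
    have h5 : p ^ (ℓ - 1) ≤ p ^ (8 * y.primeFactors.card) := h4.trans h2
    have h6 := (Nat.pow_le_pow_iff_right hp.one_lt).1 h5
    omega
  obtain ⟨q, hqy, hbigq⟩ := hex
  obtain ⟨hqm, hq2, hqp⟩ := hq q hqy
  have hqprime := Nat.prime_of_mem_primeFactors hqy
  have hqdvd := Nat.dvd_of_mem_primeFactors hqy
  have : Fact q.Prime := ⟨hqprime⟩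
  refine ⟨q, hqm, hq2, y.factorization q, hbigq, ?_⟩
  have hpow : q ^ (y.factorization q) ∣ p ^ ℓ - 1 := (Nat.ordProj_dvd y q).trans hdvd
  have hcop : ¬ q ∣ p := by
    intro h
    have := (Nat.prime_dvd_prime_iff_eq hqprime hp).1 h
    omega
  have hpℓ : 1 ≤ p ^ ℓ := Nat.one_le_pow _ _ hp.pos
  have hu : (p : ZMod q) ^ ℓ = 1 := by
    have h1 : ((p ^ ℓ - 1 : ℕ) : ZMod q) = 0 := by
      rw [ZMod.natCast_eq_zero_iff]
      exact hqdvd.trans hdvd
    rw [Nat.cast_sub hpℓ] at h1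
    push_cast at h1
    exact sub_eq_zero.1 h1
  have hu0 : (p : ZMod q) ≠ 0 := by
    intro h
    exact hcop ((ZMod.natCast_eq_zero_iff p q).1 h)
  have hord : orderOf (p : ZMod q) ∣ ℓ := orderOf_dvd_of_pow_eq_one hu
  have hdl : ℓ ∣ q - 1 := by
    rcases (Nat.dvd_prime hℓ).1 hord with h | h
    · exfalso
      have h1 : (p : ZMod q) = 1 := orderOf_eq_one_iff.1 h
      have h2 : q ∣ p - 1 := by
        rw [← ZMod.natCast_eq_zero_iff, Nat.cast_sub hp1, h1]
        simp
      have h3 : (y : ZMod q) = (ℓ : ZMod q) := by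
        rw [hy]
        push_cast
        rw [h1]
        simp
      have h4 : q ∣ ℓ := by
        rw [← ZMod.natCast_eq_zero_iff, ← h3, ZMod.natCast_eq_zero_iff]
        exact hqdvd
      have h5 : q = ℓ := (Nat.prime_dvd_prime_iff_eq hqprime hℓ).1 h4
      have hLTE := padicValNat.pow_sub_pow (p := q) (x := p) (y := 1)
        (hqprime.odd_of_ne_two (by omega)) hp.one_lt h2 hcop (n := ℓ) hℓ.ne_zero
      rw [one_pow, ← hmul, padicValNat.mul (by have := hp.one_lt; omega) hy0, ← h5,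
        padicValNat_self] at hLTE
      have h6 : padicValNat q y = 1 := by omega
      rw [Nat.factorization_def y hqprime, h6, pow_one] at hbigq
      have h7 : p ≤ p ^ 8 := Nat.le_self_pow (by norm_num) p
      omega
    · rw [← h]
      exact ZMod.orderOf_dvd_card_sub_one hu0
  obtain ⟨k, hk⟩ := hdl
  rw [hk, pow_mul]
  refine hpow.trans ?_
  have := Nat.sub_dvd_pow_sub_pow (p ^ ℓ) 1 k
  rwa [one_pow] at this

end Pool.Agent.W834.RD
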